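import Pool.Agent.Lib.MP_e813cc_gt.Betti

set_option autoImplicit false

namespace Pool.Agent.Results.MP_e813cc_gt.BettiFormula

open Pool.Agent.VRCube

universe u

/-- For every field `k`, scale `r` and degree `m` there are natural numbers `a 0, a 1, ...`,
zero as soon as `2 p > (m + 1) r + 2`, such that for every `n` the `m`-th Betti number of the
Vietoris-Rips complex of the `n`-cube at scale `r` is
`a 0 + ∑_{p < n} a (p + 1) ∑_{i < n} 2 ^ (i - p) (i choose p)`. -/
theorem result :
    ∀ (k : Type u) [Field k] (r m : ℕ), ∃ a : ℕ → ℕ,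
      (∀ p, (m + 1) * r + 2 < 2 * p → a p = 0) ∧ ∀ n : ℕ,
        Module.finrank k (Subq (cyc k n r m) (bdry k n r m)) =
          a 0 + ∑ p ∈ Finset.range n, a (p + 1) *
            ∑ i ∈ Finset.range n, 2 ^ (i - p) * i.choose p :=
  fun k _ r m => betti k r m

end Pool.Agent.Results.MP_e813cc_gt.BettiFormula
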