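import Pool.Agent.Lib.MP_e813cc_gt.Final

set_option autoImplicit false

namespace Pool.Agent.Results.MP_e813cc_gt.DegeneratesAtTwo

open Pool.Agent.VRCube

universe u

/-- For every field `k`, every `n` and every scale `r`, all differentials
`d^i : E^i_{p,q} → E^i_{p-i,q+i-1}` with `i ≥ 2` of the homology spectral sequence of the
Vietoris-Rips complex of the `n`-cube at scale `r`, filtered by cubic dimension, vanish. -/
theorem result :
    ∀ (k : Type u) [Field k] (n r : ℕ),
      DegeneratesAt (bd k (Lex (Fin n → Bool))) (chains k n r) (bd_bd k (Lex (Fin n → Bool))) 2 := by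
  intro k _ n r i p q hi
  exact pageD_eq_zero k i p (p + q) hi

end Pool.Agent.Results.MP_e813cc_gt.DegeneratesAtTwo
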